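import Pool.Agent.MP_d5eec5_gt.H77.KBasic

/-! Row SL: both endpoints slide to one level by isotopies. -/

set_option autoImplicit false

namespace Pool.Agent.MP_d5eec5_gt.H77

open Pool.Agent.MP_d5eec5_gt.H48 Kind

namespace SlA

/-- An endpoint inside `d` nested minima. -/
def blk : ℕ → ℕ → Bool → List Gen
  | 0, q, e => [(q, up e)]
  | d + 1, q, e => (q, cup) :: blk d (q + 1) e

theorem blk_eq (d q : ℕ) : ∃ u, ∀ e', blk d q e' = u ++ [(q + d, up e')] := by
  induction d generalizing q with
  | zero => exact ⟨[], fun _ => rfl⟩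
  | succ d ih =>
    obtain ⟨u, hu⟩ := ih (q + 1)
    refine ⟨(q, cup) :: u, fun e' => ?_⟩
    rw [blk, hu, show q + 1 + d = q + (d + 1) by omega]
    rfl

theorem ok_blk {n d q : ℕ} {e : Bool} (h : Ok n (blk d q e)) : q ≤ n := by
  cases d <;> simpa [win] using h.1

theorem cross_blk (d q : ℕ) (e : Bool) : cross (blk d q e) = 0 := by
  induction d generalizing q with
  | zero => simp [blk, cross]
  | succ d ih => rw [blk, cross_cons, ih]; simp [flK]

theorem count_blk (d q : ℕ) : (blk d q true).countP (IsEnd false) = 0 := by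
  induction d generalizing q with
  | zero => simp [blk, IsEnd]
  | succ d ih => rw [blk, List.countP_cons, ih]; simp [IsEnd]

/-- The block is to the right of the piece. -/
theorem far_r {n p q q' d : ℕ} {k : Kind} {e : Bool} (h : p + win k ≤ q') (h' : q' ≤ n)
    (he : q + win k = q' + wout k) :
    FE n ((p, k) :: blk d q e) (blk d q' e ++ [(p, k)]) := by
  induction d generalizing n q q' with
  | zero => exact (fe_far' (l := up e) h (by simpa [win] using h') he).symm
  | succ d ih =>
    calc FE n ((p, k) :: (q, cup) :: blk d (q + 1) e) ((q', cup) :: (p, k) :: blk d (q + 1) e) :=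
          FE.right (blk d (q + 1) e) (l := [(p, k), (q, cup)]) (r := [(q', cup), (p, k)])
            (fe_far' (l := cup) h (by simpa [win] using h') he).symm
      FE n _ ((q', cup) :: (blk d (q' + 1) e ++ [(p, k)])) :=
          FE.cons _ (ih (by omega) (by simp [win, wout]; omega) (by omega))

/-- The block is to the left of the piece. -/
theorem far_l {n p q d : ℕ} {k : Kind} {e : Bool} (h : q ≤ p) (h' : p + win k ≤ n) :
    FE n ((p, k) :: blk d q e) (blk d q e ++ [(p + 2 * d + 1, k)]) := by
  induction d generalizing n p q with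
  | zero => exact fe_far' (k := up e) (by simpa [win] using h) h' (by simp [win, wout])
  | succ d ih =>
    calc FE n ((p, k) :: (q, cup) :: blk d (q + 1) e)
          ((q, cup) :: (p + 2, k) :: blk d (q + 1) e) :=
          FE.right (blk d (q + 1) e) (l := [(p, k), (q, cup)]) (r := [(q, cup), (p + 2, k)])
            (fe_far' (k := cup) (by simpa [win] using h) h' (by simp [win, wout]))
      FE n _ ((q, cup) :: (blk d (q + 1) e ++ [(p + 2 + 2 * d + 1, k)])) :=
          FE.cons _ (ih (by omega) (by simp [win, wout] at h' ⊢; omega))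
      FE n _ ((q, cup) :: (blk d (q + 1) e ++ [(p + 2 * (d + 1) + 1, k)])) :=
          FE.of_eq (by rw [show p + 2 + 2 * d + 1 = p + 2 * (d + 1) + 1 by omega])

theorem cr_turn {n p : ℕ} (h : p + 2 ≤ n) (a : Bool) :
    FE n [(p, cr a)] [(p + 1 + 1, cup), (p + 1, cr a), (p, cap)] := by
  refine FE.symm ?_
  calc FE n [(p + 1 + 1, cup), (p + 1, cr a), (p, cap)] [(p + 1, cup), (p + 1 + 1, cr a), (p, cap)] :=
        FE.right [(p, cap)] (fe_pcup h a a)
    FE n _ [(p + 1, cup), (p, cap), (p, cr a)] :=
        FE.cons _ (fe_far' (by simp [win]) (by simp [win, wout]; omega) (by simp [win, wout]))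
    FE n _ [(p, cr a)] := FE.right [(p, cr a)] (fe_zag (by omega))

/-- The block passes below any piece. -/
theorem slide {n q d : ℕ} {g : Gen} {e : Bool} (h : Ok n (g :: blk d q e)) :
    ∃ d' q' t, FE n (g :: blk d q e) (blk d' q' e ++ t) ∧ cross t = cross [g] := by
  obtain ⟨p, k⟩ := g
  have h1 : p + win k ≤ n := h.1
  have h2 : q ≤ n - win k + wout k := ok_blk h.2
  by_cases c1 : q ≤ p
  · exact ⟨d, q, _, far_l c1 h1, by simp [cross]⟩
  by_cases c2 : p + wout k ≤ q
  · exact ⟨d, q + win k - wout k, _, far_r (by omega) (by omega) (by omega), rfl⟩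
  cases k with
  | cup =>
    obtain rfl : q = p + 1 := by simp [wout] at c2; omega
    exact ⟨d + 1, p, [], FE.of_eq (by simp [blk]), by simp [cross]⟩
  | cr a =>
    obtain rfl : q = p + 1 := by simp [wout] at c2; omega
    simp only [win] at h1
    refine ⟨d + 1, p + 1 + 1, [(p + 1, cr a), (p, cap)], ?_, by cases a <;> simp [cross]⟩
    calc FE n ((p, cr a) :: blk d (p + 1) e)
          ((p + 1 + 1, cup) :: (p + 1, cr a) :: (p, cap) :: blk d (p + 1) e) :=
          FE.right (blk d (p + 1) e) (cr_turn h1 a)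
      FE n _ ((p + 1 + 1, cup) :: (p + 1, cr a) :: (blk d (p + 1 + 1 + 1) e ++ [(p, cap)])) :=
          FE.cons _ (FE.cons _ (far_r (by simp [win]) (by simp [win, wout]; omega)
            (by simp [win, wout])))
      FE n _ ((p + 1 + 1, cup) :: (blk d (p + 1 + 1 + 1) e ++ [(p + 1, cr a)] ++ [(p, cap)])) :=
          FE.cons _ (FE.right [(p, cap)] (l := (p + 1, cr a) :: blk d (p + 1 + 1 + 1) e)
            (far_r (by simp [win]) (by simp [win, wout]; omega) (by simp [win, wout])))
      FE n _ (blk (d + 1) (p + 1 + 1) e ++ [(p + 1, cr a), (p, cap)]) := FE.of_eq (by simp [blk])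
  | cap => simp [wout] at c2; omega
  | up e' => simp [wout] at c2; omega
  | dn e' => simp [wout] at c2; omega

/-- An endpoint slides to the bottom of the word. -/
theorem down {n : ℕ} {w : List Gen} {e : Bool} (h : Ok n w) (hc : 1 ≤ w.countP (IsEnd e)) :
    ∃ d q t, FE n w (blk d q e ++ t) ∧ cross t = cross w := by
  induction w generalizing n with
  | nil => simp at hc
  | cons g w ih =>
    by_cases hg : IsEnd e g = true
    · obtain ⟨p, k⟩ := g
      simp only [IsEnd, Bool.or_eq_true, decide_eq_true_eq] at hg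
      rcases hg with rfl | rfl
      · exact ⟨0, p, w, FE.refl _ _, by simp [cross_cons, flK]⟩
      · exact ⟨0, p, (p, cap) :: w, FE.right w (fe_endl (by simpa [win] using h.1) e).symm,
          by simp [cross_cons, flK]⟩
    · rw [List.countP_cons, if_neg hg] at hc
      obtain ⟨d, q, t, h1, h2⟩ := ih h.2 hc
      have h3 := (FE.cons g h1).ok_iff.1 h
      rw [← List.cons_append, ok_append] at h3
      obtain ⟨d', q', t', h4, h5⟩ := slide h3.1
      refine ⟨d', q', t' ++ t, (FE.cons g h1).trans ?_, ?_⟩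
      · rw [← List.append_assoc]
        exact FE.right t h4
      · rw [cross_append, h5, h2, ← cross_append]
        rfl

/-- The block hops to the left end. -/
theorem hop {n q d : ℕ} {e : Bool} (h : q ≤ n) :
    ∃ d' t, FE n (blk d q e) (blk d' 0 e ++ t) ∧ cross t = 0 := by
  induction q generalizing d with
  | zero => exact ⟨d, [], FE.of_eq (by simp), rfl⟩
  | succ q ih =>
    obtain ⟨d', t, h1, h2⟩ := ih (d := d + 1) (by omega)
    refine ⟨d', t ++ [(q + 1 + 2 * d + 1, cap)], ?_, by rw [cross_append, h2]; simp [cross]⟩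
    calc FE n (blk d (q + 1) e) ((q, cup) :: (q + 1, cap) :: blk d (q + 1) e) :=
          FE.right (blk d (q + 1) e) (fe_zig h).symm
      FE n _ (blk (d + 1) q e ++ [(q + 1 + 2 * d + 1, cap)]) :=
          FE.cons _ (far_l le_rfl (by simp [win, wout]; omega))
      FE n _ (blk d' 0 e ++ t ++ [(q + 1 + 2 * d + 1, cap)]) := FE.right _ h1
      FE n _ (blk d' 0 e ++ (t ++ [(q + 1 + 2 * d + 1, cap)])) := FE.of_eq (List.append_assoc ..)

end SlA

open SlA in
theorem sl : StmtSL := by
  intro w hw h0 h1
  obtain ⟨d, q, t, a1, a2⟩ := down hw h1.ge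
  have a3 := a1.ok_iff.1 hw
  rw [ok_append] at a3
  have a4 : 1 ≤ t.countP (IsEnd false) := by
    have := a1.countP_eq false
    rw [List.countP_append, count_blk] at this
    omega
  obtain ⟨d₁, q₁, t₁, b1, b2⟩ := down a3.2 a4
  have b3 := b1.ok_iff.1 a3.2
  rw [ok_append] at b3
  obtain ⟨d₂, t₂, c1, c2⟩ := hop (d := d₁) (e := false) (ok_blk b3.1)
  obtain ⟨u, hu⟩ := blk_eq d q
  obtain ⟨u', hu'⟩ := blk_eq d₂ 0
  have a5 := a3.1
  rw [hu, ok_append] at a5
  have cu : cross u = 0 := by
    have := cross_blk d q true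
    rw [hu, cross_append] at this
    omega
  have cu' : cross u' = 0 := by
    have := cross_blk d₂ 0 false
    rw [hu', cross_append] at this
    omega
  refine ⟨u ++ u', t₂ ++ t₁, d₂, q + d + d₂, ?_, ?_⟩
  · calc FE 0 w (blk d q true ++ t) := a1
      FE 0 _ (blk d q true ++ (blk d₂ 0 false ++ t₂ ++ t₁)) :=
          FE.left _ (b1.trans (FE.right t₁ c1))
      FE 0 _ (u ++ ((q + d, up true) :: blk d₂ 0 false) ++ (t₂ ++ t₁)) :=
          FE.of_eq (by rw [hu]; simp)
      FE 0 _ (u ++ (blk d₂ 0 false ++ [(q + d + 2 * d₂ + 1, up true)]) ++ (t₂ ++ t₁)) :=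
          FE.ctx _ _ (far_l (Nat.zero_le _) a5.2.1)
      FE 0 _ (u ++ u' ++ ends d₂ (q + d + d₂) ++ (t₂ ++ t₁)) := FE.of_eq (by
          rw [hu', ends, show d₂ + 1 + (q + d + d₂) = q + d + 2 * d₂ + 1 by omega]
          simp)
  · simp only [cross_append, cu, cu', c2, b2, a2]
    simp [ends, cross]

end Pool.Agent.MP_d5eec5_gt.H77
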